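import Mathlib
import Pool.Agent.H391R2.HitMulti
import Pool.Agent.H391R2.T4.Blueprint

/-! Hilbert's irreducibility theorem over `ℚ` (monic form), from the root form. -/

set_option autoImplicit false

namespace Pool.Agent.H880R2.Hilb

open Polynomial

theorem dvd_prod_linear {k ι : Type*} [Field k] [DecidableEq ι] (β : ι → k) (R : Finset ι) :
    ∀ u : k[X], u.Monic → u ∣ ∏ i ∈ R, (X - C (β i)) →
      ∃ S ⊆ R, u = ∏ i ∈ S, (X - C (β i)) := by
  induction R using Finset.induction_on with
  | empty =>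
    intro u hu hd
    refine ⟨∅, subset_rfl, ?_⟩
    rw [Finset.prod_empty] at hd ⊢
    exact hu.eq_one_of_isUnit (isUnit_of_dvd_one hd)
  | insert j R hj ih =>
    intro u hu hd
    rw [Finset.prod_insert hj] at hd
    by_cases h : (X - C (β j)) ∣ u
    · obtain ⟨w, rfl⟩ := h
      have hw : w.Monic := (monic_X_sub_C (β j)).of_mul_monic_left hu
      have hd' : w ∣ ∏ i ∈ R, (X - C (β i)) :=
        (mul_dvd_mul_iff_left (X_sub_C_ne_zero (β j))).1 hd
      obtain ⟨S, hS, hwS⟩ := ih w hw hd'
      refine ⟨insert j S, Finset.insert_subset_insert j hS, ?_⟩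
      rw [Finset.prod_insert (fun h => hj (hS h)), ← hwS]
    · have hcop : IsCoprime u (X - C (β j)) :=
        ((irreducible_X_sub_C (β j)).coprime_iff_not_dvd.2 h).symm
      obtain ⟨S, hS, huS⟩ := ih u hu (hcop.dvd_of_dvd_mul_left hd)
      exact ⟨S, hS.trans (Finset.subset_insert j R), huS⟩

/-- choose an integer separating the values of the products over different subsets -/
theorem exists_sep {N : Type*} [Field N] [CharZero N] [DecidableEq N] (R : Finset N) :
    ∃ c : ℕ, ∀ S ⊆ R, ∀ S' ⊆ R, ∏ α ∈ S, ((c : N) - α) = ∏ α ∈ S', ((c : N) - α) → S = S' := by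
  classical
  obtain ⟨P, hPd⟩ : ∃ P : Finset N → N[X], ∀ S, P S = ∏ α ∈ S, (X - C α) := ⟨_, fun _ => rfl⟩
  have hP : ∀ S S' : Finset N, P S = P S' → S = S' := by
    intro S S' h
    have h1 : (P S).roots = S.val := by
      rw [hPd]
      exact roots_prod_X_sub_C S
    have h2 : (P S').roots = S'.val := by
      rw [hPd]
      exact roots_prod_X_sub_C S'
    apply Finset.val_injective
    rw [← h1, ← h2, h]
  obtain ⟨D, hD⟩ : ∃ D : Finset (Finset N × Finset N),
      D = (R.powerset ×ˢ R.powerset).filter (fun p => p.1 ≠ p.2) := ⟨_, rfl⟩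
  have hQ : (∏ p ∈ D, (P p.1 - P p.2)) ≠ 0 := by
    rw [Finset.prod_ne_zero_iff]
    intro p hp
    rw [hD, Finset.mem_filter] at hp
    rw [sub_ne_zero]
    intro h
    exact hp.2 (hP _ _ h)
  obtain ⟨c, hc⟩ : ∃ c : ℕ, (∏ p ∈ D, (P p.1 - P p.2)).eval (c : N) ≠ 0 := by
    by_contra hcon
    push Not at hcon
    apply hQ
    apply Polynomial.eq_zero_of_infinite_isRoot
    apply Set.Infinite.mono (s := Set.range (fun c : ℕ => (c : N)))
    · rintro _ ⟨c, rfl⟩
      exact hcon c
    · exact Set.infinite_range_of_injective Nat.cast_injective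
  rw [eval_prod, Finset.prod_ne_zero_iff] at hc
  refine ⟨c, fun S hS S' hS' h => ?_⟩
  by_contra hne
  have hmem : (S, S') ∈ D := by
    rw [hD, Finset.mem_filter, Finset.mem_product]
    exact ⟨⟨Finset.mem_powerset.2 hS, Finset.mem_powerset.2 hS'⟩, hne⟩
  apply hc (S, S') hmem
  rw [eval_sub, hPd, hPd, eval_prod, eval_prod]
  simp only [eval_sub, eval_X, eval_C]
  rw [h, sub_self]

theorem hilb_core (f : ℚ[X][X]) (hf : f.Monic) (hirr : Irreducible f) (B : ℤ) :
    ∃ a : ℤ, B < a ∧ Irreducible (f.map (evalRingHom (a : ℚ))) := by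
  classical
  let Kf := FractionRing ℚ[X]
  let fK : Kf[X] := f.map (algebraMap ℚ[X] Kf)
  have hirrK : Irreducible fK := (hf.irreducible_iff_irreducible_map_fraction_map).1 hirr
  have hfK : fK.Monic := hf.map _
  have hcK : CharZero Kf := IsFractionRing.charZero ℚ[X]
  let N := fK.SplittingField
  have hcN : CharZero N := charZero_of_injective_algebraMap (algebraMap Kf N).injective
  have hsep : fK.Separable := hirrK.separable
  have hgal : IsGalois Kf N := IsGalois.of_separable_splitting_field (p := fK) hsep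
  have hAN : Function.Injective (algebraMap ℚ[X] N) := by
    rw [IsScalarTower.algebraMap_eq ℚ[X] Kf N]
    exact (algebraMap Kf N).injective.comp (IsFractionRing.injective ℚ[X] Kf)
  have hfN : f.map (algebraMap ℚ[X] N) = fK.map (algebraMap Kf N) := by
    rw [Polynomial.map_map, ← IsScalarTower.algebraMap_eq]
  set R : Finset N := (fK.map (algebraMap Kf N)).roots.toFinset with hR
  have hnodup : (fK.map (algebraMap Kf N)).roots.Nodup := nodup_roots hsep.map
  have hsplit : (fK.map (algebraMap Kf N)).Splits := SplittingField.splits fK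
  have hprod : f.map (algebraMap ℚ[X] N) = ∏ α ∈ R, (X - C α) := by
    rw [hfN, hsplit.eq_prod_roots_of_monic (hfK.map _)]
    rw [Finset.prod_eq_multiset_prod, hR, Multiset.toFinset_val, Multiset.dedup_eq_self.2 hnodup]
  have hRroot : ∀ α ∈ R, aeval α fK = 0 := by
    intro α hα
    rw [hR, Multiset.mem_toFinset, mem_roots (hfK.map _).ne_zero, IsRoot.def, eval_map_algebraMap] at hα
    exact hα
  have hint : ∀ α ∈ R, IsIntegral ℚ[X] α := by
    intro α hα
    refine ⟨f, hf, ?_⟩
    rw [← eval_map, hfN, eval_map_algebraMap]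
    exact hRroot α hα
  have hRσ : ∀ (σ : N ≃ₐ[Kf] N), ∀ α ∈ R, σ α ∈ R := by
    intro σ α hα
    rw [hR, Multiset.mem_toFinset, mem_roots (hfK.map _).ne_zero, IsRoot.def, eval_map_algebraMap]
    have h1 : aeval (σ α) fK = σ (aeval α fK) := aeval_algHom_apply σ α fK
    rw [h1, hRroot α hα, map_zero]
  have htrans : ∀ α ∈ R, ∀ β ∈ R, ∃ σ : N ≃ₐ[Kf] N, σ α = β := by
    intro α hα β hβ
    have h1 : minpoly Kf α = fK :=
      (minpoly.eq_of_irreducible_of_monic hirrK (hRroot α hα) hfK).symm
    have h2 : minpoly Kf β = fK :=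
      (minpoly.eq_of_irreducible_of_monic hirrK (hRroot β hβ) hfK).symm
    have h3 : IsConjRoot Kf β α := by
      unfold IsConjRoot
      rw [h1, h2]
    exact (isConjRoot_iff_exists_algEquiv.1 h3)
  obtain ⟨c, hc⟩ := exists_sep R
  set θ : Finset N → N := fun S => ∏ α ∈ S, ((c : N) - α) with hθ
  have hθint : ∀ S ⊆ R, IsIntegral ℚ[X] (θ S) := by
    intro S hS
    apply IsIntegral.prod
    intro α hα
    apply IsIntegral.sub
    · exact isIntegral_natCast c
    · exact hint α (hS hα)
  set T : Finset (Finset N) := R.powerset.filter (fun S => S ≠ ∅ ∧ S ≠ R) with hT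
  have hTsub : ∀ S ∈ T, S ⊆ R := by
    intro S hS
    rw [hT, Finset.mem_filter, Finset.mem_powerset] at hS
    exact hS.1
  have hθnot : ∀ S ∈ T, θ S ∉ (algebraMap Kf N).range := by
    rintro S hS ⟨x, hx⟩
    have hS' := hS
    rw [hT, Finset.mem_filter, Finset.mem_powerset] at hS'
    obtain ⟨hSR, hSne, hSneR⟩ := hS'
    apply hSneR
    apply Finset.Subset.antisymm hSR
    intro β hβ
    obtain ⟨α, hα⟩ := Finset.nonempty_iff_ne_empty.2 hSne
    obtain ⟨σ, hσ⟩ := htrans α (hSR hα) β hβ
    have h1 : σ (θ S) = θ S := by rw [← hx, AlgEquiv.commutes]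
    have h2 : σ (θ S) = θ (S.image σ) := by
      simp only [hθ]
      rw [map_prod, Finset.prod_image (fun a _ b _ h => σ.injective h)]
      apply Finset.prod_congr rfl
      intro a _
      rw [map_sub, map_natCast]
    have h3 : S.image σ ⊆ R := by
      intro b hb
      obtain ⟨a, ha, rfl⟩ := Finset.mem_image.1 hb
      exact hRσ σ a (hSR ha)
    have h4 : S.image σ = S := hc _ h3 _ hSR (by
      show θ (S.image σ) = θ S
      rw [← h2, h1])
    rw [← h4, ← hσ]
    exact Finset.mem_image_of_mem σ hα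
  set F : ℚ[X][X] := ∏ S ∈ T, minpoly ℚ[X] (θ S) with hF
  have hFm : F.Monic := monic_prod_of_monic _ _ fun S hS => minpoly.monic (hθint S (hTsub S hS))
  have hFroot : ∀ x : ℚ[X], F.eval x ≠ 0 := by
    intro x
    rw [hF, eval_prod, Finset.prod_ne_zero_iff]
    intro S hS h0
    have hi := hθint S (hTsub S hS)
    apply hθnot S hS
    have h1 : minpoly Kf (θ S) = (minpoly ℚ[X] (θ S)).map (algebraMap ℚ[X] Kf) :=
      minpoly.isIntegrallyClosed_eq_field_fractions Kf N hi
    have hi' : IsIntegral Kf (θ S) := hi.tower_top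
    have h2 : IsRoot (minpoly Kf (θ S)) (algebraMap ℚ[X] Kf x) := by
      rw [IsRoot.def, h1, eval_map_apply, h0, map_zero]
    have h3 := degree_eq_one_of_irreducible_of_root (minpoly.irreducible hi') h2
    exact minpoly.mem_range_of_degree_eq_one Kf (θ S) h3
  obtain ⟨t, htB, ht⟩ := Pool.Agent.H391R2.hp_rat F hFm hFroot B
  refine ⟨t, htB, ?_⟩
  -- the specialisation
  set φ : ℚ[X] →+* ℚ := evalRingHom (t : ℚ) with hφ
  have hφs : Function.Surjective φ := fun q => ⟨C q, by rw [hφ, coe_evalRingHom, eval_C]⟩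
  let CC := integralClosure ℚ[X] N
  have hCinj : Function.Injective (algebraMap ℚ[X] CC) := by
    intro a b hab
    apply hAN
    exact congrArg Subtype.val hab
  have hmax : (RingHom.ker φ).IsMaximal := RingHom.ker_isMaximal_of_surjective φ hφs
  have hCint : Algebra.IsIntegral ℚ[X] CC := inferInstance
  obtain ⟨Q, hQmax, hQ⟩ := Ideal.exists_ideal_over_maximal_of_isIntegral (S := CC) (RingHom.ker φ)
    (by rw [(RingHom.injective_iff_ker_eq_bot _).1 hCinj]; exact bot_le)
  let _ : Field (CC ⧸ Q) := Ideal.Quotient.field Q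
  set ψ : CC →+* CC ⧸ Q := Ideal.Quotient.mk Q with hψ
  set j : ℚ →+* CC ⧸ Q := ψ.comp ((algebraMap ℚ[X] CC).comp (C : ℚ →+* ℚ[X])) with hj
  have hcomm : ψ.comp (algebraMap ℚ[X] CC) = j.comp φ := by
    apply RingHom.ext
    intro x
    have h1 : x - C (φ x) ∈ RingHom.ker φ := by
      rw [RingHom.mem_ker, map_sub, hφ, coe_evalRingHom, eval_C, sub_self]
    rw [← hQ, Ideal.mem_comap] at h1
    have h2 := Ideal.Quotient.eq_zero_iff_mem.2 h1
    rw [map_sub, map_sub, sub_eq_zero] at h2
    exact h2
  -- lifts of the roots to the integral closure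
  have hex : ∀ α : N, ∃ x : CC, α ∈ R → (x : N) = α := by
    intro α
    by_cases h : α ∈ R
    · exact ⟨⟨α, hint α h⟩, fun _ => rfl⟩
    · exact ⟨0, fun h' => absurd h' h⟩
  choose γ hγ using hex
  have hprodC : f.map (algebraMap ℚ[X] CC) = ∏ α ∈ R, (X - C (γ α)) := by
    apply Polynomial.map_injective (algebraMap CC N) Subtype.val_injective
    rw [Polynomial.map_map, Polynomial.map_prod]
    have h1 : (algebraMap CC N).comp (algebraMap ℚ[X] CC) = algebraMap ℚ[X] N := rfl
    rw [h1, hprod]
    apply Finset.prod_congr rfl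
    intro α hα
    rw [Polynomial.map_sub, map_X, map_C]
    congr 2
    exact (hγ α hα).symm
  have hprodQ : (f.map φ).map j = ∏ α ∈ R, (X - C (ψ (γ α))) := by
    rw [Polynomial.map_map, ← hcomm, ← Polynomial.map_map, hprodC, Polynomial.map_prod]
    apply Finset.prod_congr rfl
    intro α _
    rw [Polynomial.map_sub, map_X, map_C]
  have hcardR : R.card = f.natDegree := by
    have h1 := congrArg natDegree hprod
    rw [hf.natDegree_map, natDegree_prod_of_monic _ _ (fun α _ => monic_X_sub_C α)] at h1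
    simp only [natDegree_X_sub_C, Finset.sum_const, smul_eq_mul, mul_one] at h1
    exact h1.symm
  have hfφ : (f.map φ).Monic := hf.map φ
  have hdeg : (f.map φ).natDegree = f.natDegree := hf.natDegree_map φ
  rw [hfφ.irreducible_iff_natDegree']
  constructor
  · intro h1
    apply hirr.not_isUnit
    have h2 : f.natDegree = 0 := by rw [← hdeg, h1, natDegree_one]
    rw [hf.natDegree_eq_zero.1 h2]
    exact isUnit_one
  · intro u v hu hv huv hmem
    rw [Finset.mem_Ioc, hdeg] at hmem
    obtain ⟨hv0, hv1⟩ := hmem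
    have hvd : v.map j ∣ ∏ α ∈ R, (X - C (ψ (γ α))) := by
      rw [← hprodQ, ← huv, Polynomial.map_mul]
      exact dvd_mul_left _ _
    obtain ⟨S, hSR, hS⟩ := dvd_prod_linear (fun α => ψ (γ α)) R _ (hv.map j) hvd
    have hcardS : S.card = v.natDegree := by
      have h1 := congrArg natDegree hS
      rw [hv.natDegree_map, natDegree_prod_of_monic _ _ (fun α _ => monic_X_sub_C _)] at h1
      simp only [natDegree_X_sub_C, Finset.sum_const, smul_eq_mul, mul_one] at h1
      exact h1.symm
    have hST : S ∈ T := by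
      rw [hT, Finset.mem_filter, Finset.mem_powerset]
      refine ⟨hSR, ?_, ?_⟩
      · rintro rfl
        rw [Finset.card_empty] at hcardS
        omega
      · rintro rfl
        omega
    -- the root
    set θC : CC := ∏ α ∈ S, ((c : CC) - γ α) with hθC
    have hθCN : (θC : N) = θ S := by
      have h1 : (algebraMap CC N) θC = θ S := by
        rw [hθC, map_prod]
        simp only [hθ]
        apply Finset.prod_congr rfl
        intro α hα
        rw [map_sub, map_natCast]
        congr 1
        exact hγ α (hSR hα)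
      exact h1
    have hFθ : (F.map (algebraMap ℚ[X] CC)).eval θC = 0 := by
      apply Subtype.val_injective
      have h1 : (algebraMap CC N) ((F.map (algebraMap ℚ[X] CC)).eval θC) = 0 := by
        rw [← eval_map_apply, Polynomial.map_map]
        have h2 : (algebraMap CC N).comp (algebraMap ℚ[X] CC) = algebraMap ℚ[X] N := rfl
        have h3 : (algebraMap CC N) θC = θ S := hθCN
        rw [h2, h3, eval_map_algebraMap, hF, map_prod]
        exact Finset.prod_eq_zero hST (minpoly.aeval _ _)
      exact h1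
    have hq : j (v.eval (c : ℚ)) = ψ θC := by
      rw [← eval_map_apply, hS, eval_prod, hθC, map_prod]
      apply Finset.prod_congr rfl
      intro α _
      rw [eval_sub, eval_X, eval_C, map_sub, map_natCast, map_natCast]
    apply ht (v.eval (c : ℚ))
    have h5 : F.evalEval (t : ℚ) (v.eval (c : ℚ)) = (F.map φ).eval (v.eval (c : ℚ)) := by
      rw [hφ, eval_map]
      rw [← Polynomial.eval₂_evalRingHom]
    rw [h5]
    apply j.injective
    rw [map_zero, ← eval_map_apply, Polynomial.map_map, ← hcomm, hq, ← Polynomial.map_map,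
      eval_map_apply, hFθ, map_zero]

theorem taskE1 : Pool.Agent.H391R2.T4.TaskE1 := by
  intro f hf hirr _ g hg
  obtain ⟨B, hB⟩ : ∃ B : ℤ, ∀ a : ℤ, B < a → g.eval (a : ℚ) ≠ 0 := by
    have hfin : {a : ℤ | g.eval (a : ℚ) = 0}.Finite := by
      have h1 : (g.rootSet ℚ).Finite := g.rootSet_finite ℚ
      apply Set.Finite.of_injOn (f := fun a : ℤ => (a : ℚ)) (t := g.rootSet ℚ)
      · intro a ha
        rw [mem_rootSet]
        exact ⟨hg, by simpa using ha⟩
      · exact fun a _ b _ h => Int.cast_injective h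
      · exact h1
    obtain ⟨B, hB⟩ := hfin.bddAbove
    exact ⟨B, fun a ha h0 => absurd (hB h0) (not_le.2 ha)⟩
  obtain ⟨a, ha, hirr'⟩ := hilb_core f hf hirr B
  exact ⟨a, hB a ha, hirr'⟩

end Pool.Agent.H880R2.Hilb
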